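import Pool.Agent.OHO.Own

set_option autoImplicit false

namespace Pool.Agent.Results.MP_5f19f1_al.OrdinalHeights

open Pool.Agent.OH Pool.Agent.OHO

universe u

/-- The group `G` satisfies the law `w = 1`: all values of the word `w` in `G` are `1`. -/
def Satisfies (G : Type u) [Group G] (w : FreeGroup ℕ) : Prop :=
  ∀ η : FreeGroup ℕ →* G, η w = 1

/-- A variety of groups: the class of all groups satisfying the laws of some set of laws. -/
@[ext]
structure Variety where
  Mem : ∀ (G : Type u) [Group G], Prop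
  laws : ∃ L : Set (FreeGroup ℕ), ∀ (G : Type u) [Group G], Mem G ↔ ∀ w ∈ L, Satisfies G w

/-- Inclusion of varieties. -/
instance : PartialOrder Variety.{u} where
  le V W := ∀ (G : Type u) [Group G], V.Mem G → W.Mem G
  le_refl _ _ _ h := h
  le_trans _ _ _ h h' G _ hG := h' G (h G hG)
  le_antisymm V W h h' := by
    ext G i
    exact ⟨h G, h' G⟩

/-- `g` is the order type of a chain, well-ordered by inclusion, of proper subvarieties of `V`. -/
def IsChainType (V : Variety.{u}) (g : Ordinal.{u + 1}) : Prop :=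
  ∃ (C : Set Variety.{u}) (_ : IsWellOrder C (· < ·)), (∀ W ∈ C, W < V) ∧
    Ordinal.type (fun A B : C => A < B) = g

/-! ### varieties and fully invariant subgroups -/

/-- the laws of a variety -/
def lawsOf (V : Variety.{u}) : Subgroup (FreeGroup ℕ) where
  carrier := {w | ∀ (G : Type u) [Group G], V.Mem G → Satisfies G w}
  mul_mem' := fun ha hb G _ hG η => by rw [map_mul, ha G hG η, hb G hG η, mul_one]
  one_mem' := fun G _ _ η => map_one η
  inv_mem' := fun ha G _ hG η => by rw [map_inv, ha G hG η, inv_one]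

theorem mem_lawsOf {V : Variety.{u}} {w : FreeGroup ℕ} :
    w ∈ lawsOf V ↔ ∀ (G : Type u) [Group G], V.Mem G → Satisfies G w := Iff.rfl

theorem lawsOf_fi (V : Variety.{u}) : FI (lawsOf V) := fun φ _ hx G _ hG η =>
  hx G hG (η.comp φ)

theorem mem_iff (V : Variety.{u}) (G : Type u) [Group G] :
    V.Mem G ↔ ∀ w ∈ lawsOf V, Satisfies G w := by
  refine ⟨fun h w hw => hw G h, fun h => ?_⟩
  obtain ⟨L, hL⟩ := V.laws
  exact (hL G).2 fun w hw => h w (fun H _ hH => (hL H).1 hH w hw)

theorem le_iff {V W : Variety.{u}} : V ≤ W ↔ lawsOf W ≤ lawsOf V := by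
  constructor
  · intro h w hw G _ hG
    exact hw G (h G hG)
  · intro h G _ hG
    exact (mem_iff W G).2 fun w hw => h hw G hG

theorem lt_iff {V W : Variety.{u}} : V < W ↔ lawsOf W < lawsOf V := by
  rw [lt_iff_le_not_ge, lt_iff_le_not_ge, le_iff, le_iff]

/-- the variety of a subgroup of laws -/
def varOf (N : Subgroup (FreeGroup ℕ)) : Variety.{u} where
  Mem G _ := ∀ w ∈ N, Satisfies G w
  laws := ⟨N, fun _ _ => Iff.rfl⟩

theorem lawsOf_varOf {N : Subgroup (FreeGroup ℕ)} (hN : FI N) :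
    lawsOf (varOf.{u} N) = N := by
  have := hN.normal
  apply le_antisymm
  · intro w hw
    have hG : (varOf.{u} N).Mem (ULift.{u} (FreeGroup ℕ ⧸ N)) := by
      intro v hv η
      let η' : FreeGroup ℕ →* FreeGroup ℕ ⧸ N := (MulEquiv.ulift.toMonoidHom).comp η
      have hsurj : ∀ q : FreeGroup ℕ ⧸ N, ∃ x : FreeGroup ℕ, (x : FreeGroup ℕ ⧸ N) = q :=
        fun q => Quotient.exists_rep q
      choose sec hsec using hsurj
      let φ : FreeGroup ℕ →* FreeGroup ℕ := FreeGroup.lift fun i => sec (η' (FreeGroup.of i))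
      have hφ : (QuotientGroup.mk' N).comp φ = η' := by
        ext i
        simp [φ, hsec]
      have h1 : η' v = 1 := by
        rw [← hφ, MonoidHom.comp_apply, QuotientGroup.mk'_apply, QuotientGroup.eq_one_iff]
        exact hN φ v hv
      exact MulEquiv.ulift.injective (by simpa [η'] using h1)
    have h2 := hw _ hG ((MulEquiv.ulift.symm.toMonoidHom).comp (QuotientGroup.mk' N))
    rw [← QuotientGroup.eq_one_iff (N := N)]
    have h3 := congrArg MulEquiv.ulift h2
    simpa using h3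
  · intro w hw G _ hG
    exact hG w hw

theorem varOf_lt {N M : Subgroup (FreeGroup ℕ)} (hN : FI N) (hM : FI M) :
    varOf.{u} M < varOf.{u} N ↔ N < M := by
  rw [lt_iff, lawsOf_varOf hN, lawsOf_varOf hM]

/-- chains of varieties of type at most `α` -/
theorem type_le (α : Ordinal.{0}) (N : Subgroup (FreeGroup ℕ)) (hN : FI N)
    (h : ∀ S : Set (Subgroup (FreeGroup ℕ)), (∀ M ∈ S, FI M ∧ N < M) →
      IsChain (· ≤ ·) S → (∀ T ⊆ S, T.Nonempty → ∃ M ∈ T, ∀ M' ∈ T, M' ≤ M) →
      ∃ f : Subgroup (FreeGroup ℕ) → Ordinal.{0},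
        (∀ A ∈ S, f A < α) ∧ (∀ A ∈ S, ∀ B ∈ S, B < A → f A < f B))
    {g : Ordinal.{u + 1}} (hg : IsChainType (varOf.{u} N) g) : g ≤ Ordinal.lift.{u + 1} α := by
  obtain ⟨C, hC, hCV, rfl⟩ := hg
  have htri : ∀ A B : Variety.{u}, A ∈ C → B ∈ C → A ≤ B ∨ B ≤ A := by
    intro A B hA hB
    rcases trichotomous_of (fun A B : C => A < B) ⟨A, hA⟩ ⟨B, hB⟩ with h1 | h1 | h1
    · exact Or.inl (le_of_lt h1)
    · exact Or.inl (congrArg Subtype.val h1).le
    · exact Or.inr (le_of_lt h1)
  obtain ⟨f, hf1, hf2⟩ := h (lawsOf '' C)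
    (by
      rintro M ⟨W, hW, rfl⟩
      refine ⟨lawsOf_fi W, ?_⟩
      have := lt_iff.1 (hCV W hW)
      rwa [lawsOf_varOf hN] at this)
    (by
      rintro _ ⟨W, hW, rfl⟩ _ ⟨W', hW', rfl⟩ _
      rcases htri W W' hW hW' with h1 | h1
      · exact Or.inr (le_iff.1 h1)
      · exact Or.inl (le_iff.1 h1))
    (by
      intro T hT hne
      have hne' : {A : C | lawsOf A.1 ∈ T}.Nonempty := by
        obtain ⟨M, hM⟩ := hne
        obtain ⟨W, hW, rfl⟩ := hT hM
        exact ⟨⟨W, hW⟩, hM⟩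
      have hwf : WellFounded (fun A B : C => A < B) := hC.wf
      obtain ⟨A, hA, hmin⟩ := hwf.has_min _ hne'
      refine ⟨lawsOf A.1, hA, fun M' hM' => ?_⟩
      obtain ⟨W, hW, rfl⟩ := hT hM'
      have h1 := hmin ⟨W, hW⟩ hM'
      rcases htri W A.1 hW A.2 with h2 | h2
      · rcases h2.lt_or_eq with h3 | h3
        · exact absurd h3 h1
        · exact (congrArg lawsOf h3).le
      · exact le_iff.1 h2)
  have hlt : ∀ A : C, f (lawsOf A.1) < Ordinal.type (fun x y : α.ToType => x < y) := by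
    intro A
    rw [Ordinal.type_toType]
    exact hf1 _ ⟨A.1, A.2, rfl⟩
  let e : C → ULift.{u + 1} α.ToType := fun A =>
    ⟨Ordinal.enum (fun x y : α.ToType => x < y) ⟨f (lawsOf A.1), hlt A⟩⟩
  have he : ∀ A B : C, A < B →
      (ULift.down ⁻¹'o (fun x y : α.ToType => x < y)) (e A) (e B) := by
    intro A B hAB
    change Ordinal.enum (fun x y : α.ToType => x < y) ⟨f (lawsOf A.1), hlt A⟩ <
      Ordinal.enum (fun x y : α.ToType => x < y) ⟨f (lawsOf B.1), hlt B⟩
    have h1 : lawsOf B.1 < lawsOf A.1 := lt_iff.1 hAB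
    have h2 := hf2 (lawsOf A.1) ⟨A.1, A.2, rfl⟩ (lawsOf B.1) ⟨B.1, B.2, rfl⟩ h1
    exact (Ordinal.enum_lt_enum (r := fun x y : α.ToType => x < y)).2 h2
  have hle : Ordinal.type (fun A B : C => A < B) ≤
      Ordinal.type (ULift.down ⁻¹'o (fun x y : α.ToType => x < y) :
        ULift.{u + 1} α.ToType → ULift.{u + 1} α.ToType → Prop) :=
    Ordinal.type_le_iff'.2 ⟨RelEmbedding.ofMonotone e he⟩
  rwa [Ordinal.type_ulift, Ordinal.type_toType] at hle

/-- a chain of varieties of type `α` -/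
theorem attained (α : Ordinal.{0}) (N : Subgroup (FreeGroup ℕ)) (hN : FI N)
    (g : Ordinal.{0} → Subgroup (FreeGroup ℕ)) (h1 : ∀ γ < α, FI (g γ) ∧ N < g γ)
    (h2 : ∀ γ δ : Ordinal.{0}, γ < δ → δ < α → g δ < g γ) :
    IsChainType (varOf.{u} N) (Ordinal.lift.{u + 1} α) := by
  let ty : α.ToType → Ordinal.{0} := fun x => Ordinal.typein (fun x y : α.ToType => x < y) x
  have hty : ∀ x, ty x < α := fun x => Ordinal.typein_lt_self x
  let F : α.ToType → Variety.{u} := fun x => varOf (g (ty x))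
  have hF : StrictMono F := by
    intro x y hxy
    have h3 : ty x < ty y := (Ordinal.typein_lt_typein (fun x y : α.ToType => x < y)).2 hxy
    exact (varOf_lt (h1 _ (hty y)).1 (h1 _ (hty x)).1).2 (h2 _ _ h3 (hty y))
  let E : ((fun x y : α.ToType => x < y) ≃r (fun A B : Set.range F => A < B)) :=
    (StrictMono.orderIso F hF).toRelIsoLT
  have hwo : IsWellOrder (Set.range F) (fun A B : Set.range F => A < B) :=
    E.symm.toRelEmbedding.isWellOrder
  refine ⟨Set.range F, hwo, ?_, ?_⟩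
  · rintro _ ⟨x, rfl⟩
    exact (varOf_lt hN (h1 _ (hty x)).1).2 (h1 _ (hty x)).2
  · have h4 := E.ordinal_lift_type_eq
    rw [Ordinal.type_toType, Ordinal.lift_uzero] at h4
    exact h4.symm

/-- Every countable ordinal is the ordinal height of a variety of groups, and the height is the
type of a chain. -/
theorem result (α : Ordinal.{0}) (hα : α.card ≤ Cardinal.aleph0) :
    ∃ V : Variety.{u}, IsGreatest {g | IsChainType V g} (Ordinal.lift.{u + 1} α) := by
  obtain ⟨N, hN, hS, g, h1, h2⟩ := own_core α hα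
  exact ⟨varOf N, attained α N hN g h1 h2, fun _ hg => type_le α N hN hS hg⟩

end Pool.Agent.Results.MP_5f19f1_al.OrdinalHeights
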